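import Pool.Agent.Q16.BKC.A2a

/-! # Project BKC, job A2: classes of square norm are rational -/

set_option autoImplicit false

namespace Pool.Agent.Q16.BKC

open Pool.Agent.Q26.BKC Pool.Agent.Q274.BKC
open scoped Classical

theorem y_eq {F : Type} [Field F] [CharZero F] {q : ℕ} {A B r : ℚ} {t : F}
    (ht : t ^ 2 = -(q : F)) (hN : A ^ 2 + q * B ^ 2 = r ^ 2) :
    (((A + r : ℚ) : F) + B * t) ^ 2 = ((2 * (A + r) : ℚ) : F) * ((A : F) + B * t) := by
  have hN' : (A : F) ^ 2 + q * (B : F) ^ 2 = (r : F) ^ 2 := by exact_mod_cast hN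
  push_cast
  linear_combination (B : F) ^ 2 * ht - hN'

theorem legendre_prod {p : ℕ} [hp : Fact p.Prime] (S : Finset ℕ) (hS : ∀ x ∈ S, ¬ p ∣ x) :
    eps (∑ x ∈ S, nr p x) = legendreSym p ((∏ x ∈ S, x : ℕ) : ℤ) := by
  rw [eps_sum]
  induction S using Finset.induction_on with
  | empty => simp
  | insert a S ha ih =>
    rw [Finset.prod_insert ha, Finset.prod_insert ha, Nat.cast_mul, legendreSym.mul,
      ih (fun x hx => hS x (Finset.mem_insert_of_mem hx)), eps_nr (hS a (Finset.mem_insert_self _ _))]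

theorem val_prod {p : ℕ} [hp : Fact p.Prime] (F : Finset ℕ) (hF : ∀ x ∈ F, x.Prime) :
    padicValNat p (∏ x ∈ F, x) = if p ∈ F then 1 else 0 := by
  by_cases hpG : p ∈ F
  · rw [if_pos hpG, ← Finset.mul_prod_erase F (fun x => x) hpG]
    have h10 : ¬ p ∣ ∏ x ∈ F.erase p, x := by
      rw [Prime.dvd_finsetProd_iff hp.out.prime]
      rintro ⟨x, hx, hd⟩
      rw [Finset.mem_erase] at hx
      exact hx.1 ((Nat.prime_dvd_prime_iff_eq hp.out (hF x hx.2)).1 hd).symm
    have h11 : (∏ x ∈ F.erase p, x : ℕ) ≠ 0 := fun h0 => h10 (h0 ▸ dvd_zero _)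
    rw [padicValNat.mul hp.out.ne_zero h11, padicValNat_self, padicValNat.eq_zero_of_not_dvd h10]
  · rw [if_neg hpG]
    have h10 : ¬ p ∣ ∏ x ∈ F, x := by
      rw [Prime.dvd_finsetProd_iff hp.out.prime]
      rintro ⟨x, hx, hd⟩
      exact hpG ((Nat.prime_dvd_prime_iff_eq hp.out (hF x hx)).1 hd ▸ hx)
    rw [padicValNat.eq_zero_of_not_dvd h10]

section main

variable {q D : ℕ} {A B r : ℚ}

theorem Ar_ne (hq : q.Prime) (hB : B ≠ 0) (hN : A ^ 2 + q * B ^ 2 = r ^ 2) : A + r ≠ 0 := by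
  intro h
  have hq' : (0 : ℚ) < q := by exact_mod_cast hq.pos
  have h1 : (q : ℚ) * B ^ 2 = 0 := by linear_combination hN - (A - r) * h
  have : (q : ℚ) * B ^ 2 ≠ 0 := by positivity
  exact this h1

theorem r_ne (hq : q.Prime) (hB : B ≠ 0) (hN : A ^ 2 + q * B ^ 2 = r ^ 2) : r ≠ 0 := by
  rintro rfl
  have hq' : (0 : ℚ) < q := by exact_mod_cast hq.pos
  have : A ^ 2 + q * B ^ 2 ≠ 0 := by positivity
  rw [hN] at this
  simp at this

/-- parity of the valuation at the inert primes -/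
theorem inert_even {p : ℕ} [hp : Fact p.Prime] (hq : q.Prime) (hp2 : p ≠ 2) (hpq : ¬ p ∣ q)
    (hno : ∀ t : ℚ_[p], t ^ 2 ≠ -(q : ℚ_[p])) (hA : A ≠ 0) (hB : B ≠ 0)
    (hN : A ^ 2 + q * B ^ 2 = r ^ 2) (he : Even (min (padicValRat p A) (padicValRat p B))) :
    Even (padicValRat p (2 * (A + r))) := by
  have hr := r_ne hq hB hN
  have hAr := Ar_ne hq hB hN
  have h1 := inert_val hp2 hpq hno hq.pos hA hB
  have h2 := inert_val hp2 hpq hno hq.pos hAr hB
  rw [hN, padicValRat.pow] at h1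
  have e : (A + r) ^ 2 + q * B ^ 2 = r * (2 * (A + r)) := by linear_combination hN
  rw [e, padicValRat.mul hr (mul_ne_zero two_ne_zero hAr)] at h2
  rw [Int.even_iff] at he ⊢
  push_cast at h1
  omega

/-- parity at the good primes -/
theorem good_even {p : ℕ} [hp : Fact p.Prime] (hq : q.Prime) (hL : Loc q D A B)
    (hN : A ^ 2 + q * B ^ 2 = r ^ 2) (hpd : ¬ p ∣ 2 * q * D) :
    Even (padicValRat p (2 * (A + r))) := by
  have hp2 : p ≠ 2 := by
    rintro rfl
    exact hpd ⟨q * D, by ring⟩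
  have hpq : ¬ p ∣ q := fun h => hpd (Dvd.dvd.mul_right (Dvd.dvd.mul_left h 2) D)
  by_cases hs : ∃ t : ℚ_[p], t ^ 2 = -(q : ℚ_[p])
  · obtain ⟨t, ht⟩ := hs
    obtain ⟨a, u, ha, hu, he⟩ := hL.good p hpd t ht
    have hu0 : u ≠ 0 := by
      rintro rfl
      rw [norm_zero] at hu
      norm_num at hu
    have h1 := y_eq (F := ℚ_[p]) ht hN
    rw [he] at h1
    have hAr : (2 * (A + r) : ℚ) ≠ 0 := mul_ne_zero two_ne_zero (Ar_ne hq hL.neB hN)
    have hAr' : ((2 * (A + r) : ℚ) : ℚ_[p]) ≠ 0 := by exact_mod_cast hAr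
    have h0 : ((A + r : ℚ) : ℚ_[p]) + B * t ≠ 0 := by
      intro h0
      rw [h0] at h1
      have : ((2 * (A + r) : ℚ) : ℚ_[p]) * (a ^ 2 * u) ≠ 0 :=
        mul_ne_zero hAr' (mul_ne_zero (pow_ne_zero 2 ha) hu0)
      apply this
      rw [← h1]; ring
    have h2 := congrArg Padic.valuation h1
    rw [Padic.valuation_pow, Padic.valuation_mul hAr' (mul_ne_zero (pow_ne_zero 2 ha) hu0),
      Padic.valuation_mul (pow_ne_zero 2 ha) hu0, Padic.valuation_pow, val0 hu,
      Padic.valuation_ratCast] at h2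
    rw [Int.even_iff]
    push_cast at h2
    omega
  · push Not at hs
    exact inert_even hq hp2 hpq hs hL.neA hL.neB hN (hL.goodi p hpd hs)

/-- parity at the inert primes of `D` -/
theorem D_even {p : ℕ} [hp : Fact p.Prime] (hq : q.Prime) (hC : Cl q D) (hL : Loc q D A B)
    (hN : A ^ 2 + q * B ^ 2 = r ^ 2) (hpD : p ∣ D) (hps : p ∉ SP q D) :
    Even (padicValRat p (2 * (A + r))) := by
  have hsq : ¬ IsSquare (-(q : ZMod p)) := fun h =>
    hps (Finset.mem_filter.2 ⟨Nat.mem_primeFactors.2 ⟨hp.out, hpD, hC.sqf.ne_zero⟩, h⟩)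
  obtain ⟨hp4, hpq⟩ := hC.one p hp.out hpD
  have hp2 : p ≠ 2 := by
    rintro rfl
    omega
  have hpq' : ¬ p ∣ q := fun h => hpq ((Nat.prime_dvd_prime_iff_eq hp.out hq).1 h)
  have hnd : ¬ (p : ℤ) ∣ -(q : ℤ) := by
    rw [dvd_neg]
    exact_mod_cast hpq'
  have hno : ∀ t : ℚ_[p], t ^ 2 ≠ -(q : ℚ_[p]) := by
    intro t ht
    apply hsq
    have h3 : IsSquare ((-(q : ℤ) : ℤ) : ℚ_[p]) := ⟨t, by push_cast; rw [← ht, sq]⟩
    rw [sq_iff_zmod hp2 hnd] at h3
    push_cast at h3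
    exact h3
  obtain ⟨i, hi⟩ : IsSquare (-1 : ZMod p) := ZMod.exists_sq_eq_neg_one_iff.2 (by omega)
  have hqs : ¬ IsSquare (q : ZMod p) := by
    rintro ⟨y, hy⟩
    exact hsq ⟨i * y, by rw [hy]; linear_combination (y * y) * hi⟩
  have hnd' : ¬ (p : ℤ) ∣ (q : ℤ) := by exact_mod_cast hpq'
  have hqs' : ¬ IsSquare ((q : ℤ) : ℚ_[p]) := by
    rw [sq_iff_zmod hp2 hnd']
    push_cast
    exact hqs
  have hr := r_ne hq hL.neB hN
  have hr' : (r : ℚ_[p]) ≠ 0 := by exact_mod_cast hr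
  rcases hL.inert p hpD hno with ⟨h5, h6⟩ | ⟨h5, h6⟩
  · exact inert_even hq hp2 hpq' hno hL.neA hL.neB hN h5
  · exfalso
    apply hqs'
    have h10 : (((A ^ 2 + q * B ^ 2) * q : ℚ) : ℚ_[p]) = ((q : ℤ) : ℚ_[p]) * (r : ℚ_[p]) ^ 2 := by
      rw [hN]
      push_cast
      ring
    rw [h10] at h6
    exact (sq_mul_sq_iff hr').1 h6

theorem unit1 {w : ℚ_[2]} (hw : ‖w - 1‖ ≤ 1 / 4) : ‖w‖ = 1 := by
  have e : w = (w - 1) + 1 := by ring
  have h3 : ‖(w - 1 : ℚ_[2])‖ ≠ ‖(1 : ℚ_[2])‖ := by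
    rw [norm_one]
    intro h
    rw [h] at hw
    norm_num at hw
  rw [e, Padic.add_eq_max_of_ne h3, norm_one]
  exact max_eq_right (by linarith)

theorem mul1 {w w' : ℚ_[2]} (hw : ‖w - 1‖ ≤ 1 / 4) (hw' : ‖w' - 1‖ ≤ 1 / 4) :
    ‖w * w' - 1‖ ≤ 1 / 4 := by
  have e : w * w' - 1 = w * (w' - 1) + (w - 1) := by ring
  rw [e]
  refine (Padic.nonarchimedean _ _).trans (max_le ?_ hw)
  rw [norm_mul, unit1 hw, one_mul]
  exact hw'

theorem cast4 {n : ℕ} (hn : n % 4 = 1) : ‖(n : ℚ_[2]) - 1‖ ≤ 1 / 4 := by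
  have : ‖((n - 1 : ℤ) : ℚ_[2])‖ ≤ 1 / 4 := norm_le4.2 (by omega)
  push_cast at this
  exact this

theorem prod4 (S : Finset ℕ) (hS : ∀ x ∈ S, x % 4 = 1) : (∏ x ∈ S, x) % 4 = 1 := by
  induction S using Finset.induction_on with
  | empty => simp
  | insert a S ha ih =>
    rw [Finset.prod_insert ha, Nat.mul_mod, hS a (Finset.mem_insert_self _ _),
      ih fun x hx => hS x (Finset.mem_insert_of_mem hx)]

/-- the class at `2` -/
theorem two_class (hq : q.Prime) (hq8 : q % 8 = 7) (hC : Cl q D) (hL : Loc q D A B)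
    (hN : A ^ 2 + q * B ^ 2 = r ^ 2) : ∃ w z : ℚ_[2], ‖w - 1‖ ≤ 1 / 4 ∧ z ≠ 0 ∧
      ((2 * (A + r) : ℚ) : ℚ_[2]) * w = z ^ 2 := by
  obtain ⟨t, ht, ht1⟩ := root_two hq8
  have hDp : ∀ x ∈ D.primeFactors, x % 4 = 1 := fun x hx =>
    (hC.one x (Nat.prime_of_mem_primeFactors hx) (Nat.dvd_of_mem_primeFactors hx)).1
  have hD4 : D % 4 = 1 := by
    have := prod4 D.primeFactors hDp
    rwa [Nat.prod_primeFactors_of_squarefree hC.sqf] at this
  obtain ⟨w, hw1, hw2⟩ : ∃ w : ℚ_[2], ‖w - 1‖ ≤ 1 / 4 ∧ IsSquare (((A : ℚ_[2]) + B * t) * w) := by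
    rcases hL.two t ht ht1 with h3 | h3
    · exact ⟨1, by simp, by rw [mul_one]; exact h3⟩
    · exact ⟨D * t, mul1 (cast4 hD4) ht1, h3⟩
  obtain ⟨y, hy⟩ := hw2
  have h1 := y_eq (F := ℚ_[2]) ht hN
  have hAr : (2 * (A + r) : ℚ) ≠ 0 := mul_ne_zero two_ne_zero (Ar_ne hq hL.neB hN)
  have hAr' : ((2 * (A + r) : ℚ) : ℚ_[2]) ≠ 0 := by exact_mod_cast hAr
  have hX : (A : ℚ_[2]) + B * t ≠ 0 := by
    have := N_ne (p := 2) (B := B) hq.pos hL.neA
    rw [N_fac ht] at this
    exact left_ne_zero_of_mul this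
  have hw0 : w ≠ 0 := by
    rintro rfl
    have := unit1 hw1
    rw [norm_zero] at this
    norm_num at this
  have hy0 : y ≠ 0 := by
    rintro rfl
    rw [mul_zero] at hy
    exact mul_ne_zero hX hw0 hy
  -- `n w = (Y y / X)^2 / ...`
  refine ⟨w, (((A + r : ℚ) : ℚ_[2]) + B * t) * y / ((A : ℚ_[2]) + B * t), hw1, ?_, ?_⟩
  · refine div_ne_zero (mul_ne_zero ?_ hy0) hX
    intro h0
    rw [h0] at h1
    have := mul_ne_zero hAr' hX
    apply this
    rw [← h1]; ring
  · rw [div_pow, mul_pow, h1, sq y, ← hy]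
    field_simp

/-- the main part, for the good sign of `r` -/
theorem main_part (K : Type) [Field K] [CharZero K] {s : K} (hq : q.Prime) (hq8 : q % 8 = 7)
    (hC : Cl q D) (hs : s ^ 2 = -(q : K)) (hL : Loc q D A B)
    (hN : A ^ 2 + q * B ^ 2 = r ^ 2) (hev : Even (padicValRat q (2 * (A + r)))) :
    ∃ F : Finset ℕ, F ⊆ SP q D ∧ (∀ i ∈ SP q D, row q D F i = 0) ∧
      IsSquare (((A : K) + B * s) * ((∏ p ∈ F, p : ℕ) : K)) := by
  have hD0 : D ≠ 0 := hC.sqf.ne_zero
  have hpf : ∀ p ∈ D.primeFactors, p.Prime ∧ p ∣ D ∧ p % 4 = 1 ∧ p ≠ q := fun p hp =>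
    ⟨Nat.prime_of_mem_primeFactors hp, Nat.dvd_of_mem_primeFactors hp,
      hC.one p (Nat.prime_of_mem_primeFactors hp) (Nat.dvd_of_mem_primeFactors hp)⟩
  have hSP : SP q D ⊆ D.primeFactors := Finset.filter_subset _ _
  set n : ℚ := 2 * (A + r) with hn
  have hn0 : n ≠ 0 := mul_ne_zero two_ne_zero (Ar_ne hq hL.neB hN)
  set F : Finset ℕ := (SP q D).filter (fun p => ¬ Even (padicValRat p n)) with hF
  have hFS : F ⊆ SP q D := Finset.filter_subset _ _
  have hFp : ∀ x ∈ F, x.Prime := fun x hx => (hpf x (hSP (hFS hx))).1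
  have hF4 : ∀ x ∈ F, x % 4 = 1 := fun x hx => (hpf x (hSP (hFS hx))).2.2.1
  set P : ℕ := ∏ p ∈ F, p with hP
  have hP4 : P % 4 = 1 := prod4 F hF4
  have hP0 : P ≠ 0 := by
    intro h0; rw [h0] at hP4; omega
  have hPq : (P : ℚ) ≠ 0 := by exact_mod_cast hP0
  obtain ⟨w, z, hw, hz0, hwz⟩ := two_class hq hq8 hC hL hN
  rw [← hn] at hwz
  -- the valuations of `n P`
  have hval : ∀ p : ℕ, p.Prime → Even (padicValRat p (n * P)) := by
    intro p hp
    have := Fact.mk hp
    rw [padicValRat.mul hn0 hPq, padicValRat.of_nat, hP, val_prod F hFp]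
    by_cases hpF : p ∈ F
    · rw [if_pos hpF]
      have h1 := (Finset.mem_filter.1 hpF).2
      rw [Int.even_iff] at h1 ⊢
      push_cast
      omega
    · rw [if_neg hpF, Nat.cast_zero, add_zero]
      by_cases hpS : p ∈ SP q D
      · by_contra hne
        exact hpF (Finset.mem_filter.2 ⟨hpS, hne⟩)
      · by_cases hpD : p ∣ D
        · exact D_even hq hC hL hN hpD hpS
        · by_cases hp2 : p = 2
          · subst hp2
            have h2 := congrArg Padic.valuation hwz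
            have hn' : (n : ℚ_[2]) ≠ 0 := by exact_mod_cast hn0
            have hwu := unit1 hw
            have hw0 : w ≠ 0 := by
              rintro rfl
              rw [norm_zero] at hwu
              norm_num at hwu
            rw [Padic.valuation_mul hn' hw0, val0 hwu, Padic.valuation_pow,
              Padic.valuation_ratCast] at h2
            rw [Int.even_iff]
            push_cast at h2
            omega
          · by_cases hpq : p = q
            · subst hpq
              exact hev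
            · refine good_even hq hL hN ?_
              intro hd
              rcases (hp.dvd_mul).1 hd with h4 | h4
              · rcases (hp.dvd_mul).1 h4 with h5 | h5
                · exact hp2 ((Nat.prime_dvd_prime_iff_eq hp Nat.prime_two).1 h5)
                · exact hpq ((Nat.prime_dvd_prime_iff_eq hp hq).1 h5)
              · exact hpD h4
  -- the sign
  obtain ⟨m, hm0, hm⟩ : ∃ m : ℚ, m ≠ 0 ∧ n * P = m ^ 2 := by
    rcases lt_or_gt_of_ne (mul_ne_zero hn0 hPq) with hlt | hgt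
    · exfalso
      obtain ⟨m, hm0, hm⟩ := rat_sq (w := -(n * P)) (by linarith)
        (fun p hp => by rw [padicValRat.neg]; exact hval p hp)
      have hmQ : -((n : ℚ_[2]) * P) = (m : ℚ_[2]) ^ 2 := by exact_mod_cast hm
      have hn' : (n : ℚ_[2]) ≠ 0 := by exact_mod_cast hn0
      refine two_sign (w := w * P) (z := z * m / n) (mul1 hw (cast4 hP4)) ?_
      rw [div_pow, mul_pow, ← hmQ, ← hwz]
      field_simp
    · exact rat_sq hgt hval
  refine ⟨F, hFS, ?_, ?_⟩
  · -- the rows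
    intro i hi
    have hip := (hpf i (hSP hi)).1
    have := Fact.mk hip
    obtain ⟨_, hiD, hi4, hiq⟩ := hpf i (hSP hi)
    have hi2 : i ≠ 2 := by rintro rfl; omega
    have hiq' : ¬ i ∣ q := fun h => hiq ((Nat.prime_dvd_prime_iff_eq hip hq).1 h)
    have hsq : IsSquare (-(q : ZMod i)) := (Finset.mem_filter.1 hi).2
    have hnd : ¬ (i : ℤ) ∣ -(q : ℤ) := by
      rw [dvd_neg]
      exact_mod_cast hiq'
    obtain ⟨t, ht'⟩ : IsSquare ((-(q : ℤ) : ℤ) : ℚ_[i]) := by
      rw [sq_iff_zmod hi2 hnd]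
      push_cast
      exact hsq
    have ht : t ^ 2 = -(q : ℚ_[i]) := by
      rw [sq, ← ht']
      push_cast
      rfl
    have htn := norm_root hiq' ht
    have ht0 : t ≠ 0 := by
      rintro rfl
      rw [norm_zero] at htn
      norm_num at htn
    have hX : (A : ℚ_[i]) + B * t ≠ 0 := by
      have := N_ne (p := i) (B := B) hq.pos hL.neA
      rw [N_fac ht] at this
      exact left_ne_zero_of_mul this
    have hPi : (P : ℚ_[i]) ≠ 0 := by exact_mod_cast hP0
    have hni : (n : ℚ_[i]) ≠ 0 := by exact_mod_cast hn0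
    have hmi : (m : ℚ_[i]) ≠ 0 := by exact_mod_cast hm0
    have h1 := y_eq (F := ℚ_[i]) ht hN
    have h2 : (n : ℚ_[i]) * P = (m : ℚ_[i]) ^ 2 := by exact_mod_cast hm
    rw [← hn] at h1
    set Y : ℚ_[i] := ((A + r : ℚ) : ℚ_[i]) + B * t with hY
    have hY0 : Y ≠ 0 := by
      intro h0
      rw [h0] at h1
      apply mul_ne_zero hni hX
      rw [← h1]; ring
    -- `P = X * square`
    have hPX : (P : ℚ_[i]) = ((A : ℚ_[i]) + B * t) * (m / Y) ^ 2 := by
      rw [div_pow, ← h2, h1]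
      field_simp
    have hc0 : (m : ℚ_[i]) / Y ≠ 0 := div_ne_zero hmi hY0
    have hFi : ∀ x ∈ F.erase i, ¬ i ∣ x := fun x hx hd => by
      rw [Finset.mem_erase] at hx
      exact hx.1 ((Nat.prime_dvd_prime_iff_eq hip (hFp x hx.2)).1 hd).symm
    have hDi : ∀ x ∈ D.primeFactors.erase i, ¬ i ∣ x := fun x hx hd => by
      rw [Finset.mem_erase] at hx
      exact hx.1 ((Nat.prime_dvd_prime_iff_eq hip (hpf x hx.2).1).1 hd).symm
    have hvP : ((P : ℕ) : ℚ_[i]).valuation = if i ∈ F then 1 else 0 := by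
      rw [Padic.valuation_natCast, hP, val_prod F hFp]
      by_cases h : i ∈ F <;> simp [h]
    have hDprod : (∏ x ∈ D.primeFactors, x) = D := Nat.prod_primeFactors_of_squarefree hC.sqf
    have hDq : (D : ℚ_[i]) ≠ 0 := by exact_mod_cast hD0
    have hvD : ((D : ℕ) : ℚ_[i]).valuation = 1 := by
      rw [Padic.valuation_natCast, ← hDprod, val_prod D.primeFactors (fun x hx => (hpf x hx).1),
        if_pos (hSP hi)]
      rfl
    rw [← eps_one_iff]
    unfold row
    rcases hL.split i hiD t ht with h3 | h3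
    · -- `A + B t` is a square
      have h4 : IsSquare (P : ℚ_[i]) := by
        rw [hPX]
        exact (sq_mul_sq_iff hc0).2 h3
      have h5 := even_of_sq hPi h4
      have hiF : i ∉ F := by
        intro h
        rw [hvP, if_pos h] at h5
        revert h5; decide
      rw [if_neg hiF, add_zero, legendre_prod _ hFi, Finset.erase_eq_of_notMem hiF]
      have hFi' : ¬ (i : ℤ) ∣ ((∏ x ∈ F, x : ℕ) : ℤ) := by
        rw [Int.natCast_dvd_natCast, Prime.dvd_finsetProd_iff hip.prime]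
        rintro ⟨x, hx, hd⟩
        exact hFi x (by rwa [Finset.erase_eq_of_notMem hiF]) hd
      rw [← sq_iff_leg hi2 hFi', Int.cast_natCast]
      exact h4
    · -- `(A + B t) D t` is a square
      have h4 : IsSquare ((P : ℚ_[i]) * (D * t)) := by
        rw [hPX, mul_right_comm]
        exact (sq_mul_sq_iff hc0).2 h3
      have h5 := even_of_sq (mul_ne_zero hPi (mul_ne_zero hDq ht0)) h4
      rw [Padic.valuation_mul hPi (mul_ne_zero hDq ht0), Padic.valuation_mul hDq ht0, hvD, val0 htn,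
        hvP] at h5
      have hiF : i ∈ F := by
        by_contra h
        rw [if_neg h] at h5
        revert h5; decide
      rw [if_pos hiF]
      have hti : (i : ℚ_[i]) ≠ 0 := Nat.cast_ne_zero.2 hip.ne_zero
      obtain ⟨u, c, hu, hc, htu⟩ := rep_even ht0 (by rw [val0 htn]; exact Even.zero)
      set P' : ℕ := ∏ x ∈ F.erase i, x with hP'
      set D' : ℕ := ∏ x ∈ D.primeFactors.erase i, x with hD'
      have eP : P = i * P' := by rw [hP, hP', ← Finset.mul_prod_erase F (fun x => x) hiF]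
      have eD : D = i * D' := by
        conv_lhs => rw [← hDprod]
        rw [hD', ← Finset.mul_prod_erase D.primeFactors (fun x => x) (hSP hi)]
      have h6 : IsSquare (((P' * D' * u : ℤ)) : ℚ_[i]) := by
        have e : (P : ℚ_[i]) * (D * t) = ((P' * D' * u : ℤ) : ℚ_[i]) * (i * c) ^ 2 := by
          rw [htu, eD]
          have : (P : ℚ_[i]) = i * P' := by rw [eP]; push_cast; rfl
          rw [this]
          push_cast
          ring
        rw [e] at h4
        exact (sq_mul_sq_iff (mul_ne_zero hti hc)).1 h4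
      have hndP : ¬ (i : ℤ) ∣ (P' : ℤ) := by
        rw [Int.natCast_dvd_natCast, hP', Prime.dvd_finsetProd_iff hip.prime]
        rintro ⟨x, hx, hd⟩
        exact hFi x hx hd
      have hndD : ¬ (i : ℤ) ∣ (D' : ℤ) := by
        rw [Int.natCast_dvd_natCast, hD', Prime.dvd_finsetProd_iff hip.prime]
        rintro ⟨x, hx, hd⟩
        exact hDi x hx hd
      have hipZ : Prime (i : ℤ) := Nat.prime_iff_prime_int.mp hip
      have hnd3 : ¬ (i : ℤ) ∣ (P' * D' * u : ℤ) := by
        intro h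
        rcases hipZ.dvd_or_dvd h with h7 | h7
        · rcases hipZ.dvd_or_dvd h7 with h8 | h8
          · exact hndP h8
          · exact hndD h8
        · exact hu h7
      rw [sq_iff_leg hi2 hnd3, legendreSym.mul, legendreSym.mul] at h6
      have h7 : eps (n4 q i) = legendreSym i u := by
        have h8 : IsSquare t ↔ legendreSym i u = 1 := by
          rw [htu, sq_mul_sq_iff hc, sq_iff_leg hi2 hu]
        unfold n4
        by_cases h9 : IsSquare t
        · rw [if_pos ((fourth hi4 hiq' ht).2 h9), h8.1 h9]; rfl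
        · rw [if_neg (fun h => h9 ((fourth hi4 hiq' ht).1 h))]
          have h10 : ((u : ℤ) : ZMod i) ≠ 0 := fun h0 =>
            hu ((ZMod.intCast_zmod_eq_zero_iff_dvd _ i).1 h0)
          rcases legendreSym.eq_one_or_neg_one i h10 with h11 | h11
          · exact absurd (h8.2 h11) h9
          · rw [h11]; rfl
      rw [eps_add, eps_add, h7, legendre_prod _ hFi, legendre_prod _ hDi, ← mul_assoc]
      exact h6
  · -- the square
    have h1 := y_eq (F := K) hs hN
    rw [← hn] at h1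
    have h2 : (n : K) * P = (m : K) ^ 2 := by exact_mod_cast hm
    have hnK : (n : K) ≠ 0 := by exact_mod_cast hn0
    refine ⟨(((A + r : ℚ) : K) + B * s) * m / n, ?_⟩
    rw [← sq, div_pow, mul_pow, h1, ← h2, ← hP]
    field_simp

end main

/-- BKC-15 (A2) -/
theorem t_A2 : S_A2 := by
  intro K _ _ q D s A B r hq hq8 hC hs hL hN
  have : Fact q.Prime := ⟨hq⟩
  have hB := hL.neB
  have hN' : A ^ 2 + q * B ^ 2 = (-r) ^ 2 := by rw [hN]; ring
  have h1 := Ar_ne hq hB hN
  have h2 := Ar_ne hq hB hN'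
  have hq0 : (q : ℚ) ≠ 0 := by exact_mod_cast hq.ne_zero
  have e : (2 * (A + r)) * (2 * (A + -r)) = -(q * (2 * B) ^ 2) := by
    linear_combination 4 * hN
  have hv := congrArg (padicValRat q) e
  rw [padicValRat.mul (mul_ne_zero two_ne_zero h1) (mul_ne_zero two_ne_zero h2), padicValRat.neg,
    padicValRat.mul hq0 (pow_ne_zero 2 (mul_ne_zero two_ne_zero hB)), padicValRat.pow,
    padicValRat.self hq.one_lt] at hv
  by_cases hev : Even (padicValRat q (2 * (A + r)))
  · exact main_part K hq hq8 hC hs hL hN hev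
  · refine main_part K hq hq8 hC hs hL hN' ?_
    rw [Int.even_iff] at hev ⊢
    push_cast at hv
    omega

end Pool.Agent.Q16.BKC
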