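import Pool.Agent.Q26.BKC.E2

/-! # Project BKC, job A2: local lemmas -/

set_option autoImplicit false

namespace Pool.Agent.Q16.BKC

open Pool.Agent.Q26.BKC Pool.Agent.Q274.BKC
open scoped Classical

theorem toZMod_zero_iff {p : ℕ} [hp : Fact p.Prime] (u : ℤ_[p]) :
    PadicInt.toZMod u = 0 ↔ ‖u‖ < 1 := by
  rw [← RingHom.mem_ker, PadicInt.ker_toZMod, IsLocalRing.mem_maximalIdeal, PadicInt.mem_nonunits]

/-- the norm form at an inert prime -/
theorem inert_val {p : ℕ} [hp : Fact p.Prime] {q : ℕ} (hp2 : p ≠ 2) (hpq : ¬ p ∣ q)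
    (hno : ∀ t : ℚ_[p], t ^ 2 ≠ -(q : ℚ_[p])) (hq : 0 < q) {x y : ℚ} (hx : x ≠ 0) (hy : y ≠ 0) :
    padicValRat p (x ^ 2 + q * y ^ 2) = 2 * min (padicValRat p x) (padicValRat p y) := by
  have hq' : (0 : ℚ) < q := by exact_mod_cast hq
  have hq0 : (q : ℚ) ≠ 0 := hq'.ne'
  have hvq : padicValRat p (q : ℚ) = 0 := by
    rw [padicValRat.of_nat, padicValNat.eq_zero_of_not_dvd hpq]; rfl
  have hsum : x ^ 2 + q * y ^ 2 ≠ 0 := by positivity
  by_cases hv : padicValRat p x = padicValRat p y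
  · -- equal valuations
    have hz0 : x / y ≠ 0 := div_ne_zero hx hy
    have hzv : padicValRat p (x / y) = 0 := by
      rw [padicValRat.div hx hy, hv, sub_self]
    have e1 : x ^ 2 + q * y ^ 2 = y ^ 2 * ((x / y) ^ 2 + q) := by
      field_simp
    have hs2 : (x / y) ^ 2 + (q : ℚ) ≠ 0 := by positivity
    have key : padicValRat p ((x / y) ^ 2 + q) = 0 := by
      have hzn : ‖((x / y : ℚ) : ℚ_[p])‖ ≤ 1 := by
        rw [Padic.norm_eq_zpow_neg_valuation (by exact_mod_cast hz0), Padic.valuation_ratCast, hzv]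
        simp
      obtain ⟨v, hv'⟩ : ∃ v : ℤ_[p], (v : ℚ_[p]) = ((x / y : ℚ) : ℚ_[p]) := ⟨⟨_, hzn⟩, rfl⟩
      have hw : ((v ^ 2 + (q : ℤ_[p]) : ℤ_[p]) : ℚ_[p]) = (((x / y) ^ 2 + q : ℚ) : ℚ_[p]) := by
        push_cast
        rw [hv']
        push_cast
        rfl
      have hunit : PadicInt.toZMod (v ^ 2 + (q : ℤ_[p])) ≠ 0 := by
        intro h0
        rw [map_add, map_pow, map_natCast] at h0
        have h1 : PadicInt.toZMod (-(q : ℤ_[p])) = (PadicInt.toZMod v) ^ 2 := by
          rw [map_neg, map_natCast]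
          linear_combination -h0
        have h2 : PadicInt.toZMod v ≠ 0 := by
          intro h3
          rw [h3] at h0
          have : (q : ZMod p) = 0 := by linear_combination h0
          exact hpq ((ZMod.natCast_eq_zero_iff q p).1 this)
        have h4 := Pool.Agent.W335.BMX.isSquare_coe
          (Pool.Agent.W335.BMX.sq_of_residue hp2 (-(q : ℤ_[p])) _ h2 h1)
        obtain ⟨t, ht⟩ := h4
        apply hno t
        rw [sq, ← ht]
        push_cast
        rfl
      have hn : ‖(v ^ 2 + (q : ℤ_[p]) : ℤ_[p])‖ = 1 := by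
        refine le_antisymm (PadicInt.norm_le_one _) ?_
        by_contra hlt
        push Not at hlt
        exact hunit ((toZMod_zero_iff _).2 hlt)
      rw [PadicInt.norm_def, hw] at hn
      have := val0 hn
      rwa [Padic.valuation_ratCast] at this
    rw [e1, padicValRat.mul (pow_ne_zero 2 hy) hs2, key, padicValRat.pow, hv, min_self]
    push_cast
    ring
  · have h1 : padicValRat p (x ^ 2) = 2 * padicValRat p x := by
      rw [padicValRat.pow]; push_cast; ring
    have h2 : padicValRat p (q * y ^ 2) = 2 * padicValRat p y := by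
      rw [padicValRat.mul hq0 (pow_ne_zero 2 hy), padicValRat.pow, hvq]; push_cast; ring
    rw [padicValRat.add_eq_min hsum (pow_ne_zero 2 hx) (mul_ne_zero hq0 (pow_ne_zero 2 hy))
      (by rw [h1, h2]; omega), h1, h2]
    omega

/-- the square root of `-q` and the fourth power residue symbol -/
theorem fourth {p : ℕ} [hp : Fact p.Prime] {q : ℕ} (hp4 : p % 4 = 1) (hpq : ¬ p ∣ q) {t : ℚ_[p]}
    (ht : t ^ 2 = -(q : ℚ_[p])) : (∃ y : ZMod p, y ^ 4 = -(q : ZMod p)) ↔ IsSquare t := by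
  have hp2 : p ≠ 2 := by rintro rfl; omega
  have hn := norm_root hpq ht
  obtain ⟨i, hi⟩ : IsSquare ((-1 : ℤ) : ℚ_[p]) := by
    rw [sq_iff_zmod hp2 (by rw [dvd_neg]; exact fun h => hp.out.one_lt.ne' (by
      have := Int.eq_one_of_dvd_one (by positivity) h
      exact_mod_cast this))]
    push_cast
    exact ZMod.exists_sq_eq_neg_one_iff.2 (by omega)
  push_cast at hi
  have hi0 : i ≠ 0 := by
    rintro rfl
    rw [mul_zero] at hi
    norm_num at hi
  have hneg : IsSquare (-t) ↔ IsSquare t := by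
    have e : -t = t * i ^ 2 := by rw [sq, ← hi]; ring
    rw [e]
    exact sq_mul_sq_iff hi0
  obtain ⟨v, hv⟩ : ∃ v : ℤ_[p], (v : ℚ_[p]) = t := ⟨⟨t, hn.le⟩, rfl⟩
  have hv2 : v ^ 2 = ((-(q : ℤ) : ℤ) : ℤ_[p]) := by
    apply Subtype.ext
    rw [PadicInt.coe_pow, hv, ht]
    push_cast
    rfl
  have hz : (PadicInt.toZMod v) ^ 2 = -(q : ZMod p) := by
    rw [← map_pow, hv2, map_intCast]
    push_cast
    rfl
  have hz0 : PadicInt.toZMod v ≠ 0 := by
    intro h0
    rw [h0] at hz
    have h5 : (q : ZMod p) = 0 := by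
      linear_combination hz
    exact hpq ((ZMod.natCast_eq_zero_iff q p).1 h5)
  constructor
  · rintro ⟨y, hy⟩
    have h6 : (y ^ 2 - PadicInt.toZMod v) * (y ^ 2 + PadicInt.toZMod v) = 0 := by
      linear_combination hy - hz
    rcases mul_eq_zero.1 h6 with h7 | h7
    · have := Pool.Agent.W335.BMX.isSquare_coe (Pool.Agent.W335.BMX.sq_of_residue hp2 v y (by
        rintro rfl
        apply hz0
        linear_combination -h7) (by linear_combination -h7))
      rwa [hv] at this
    · rw [← hneg]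
      have := Pool.Agent.W335.BMX.isSquare_coe (Pool.Agent.W335.BMX.sq_of_residue hp2 (-v) y (by
        rintro rfl
        apply hz0
        linear_combination h7) (by rw [map_neg]; linear_combination -h7))
      rwa [PadicInt.coe_neg, hv] at this
  · rintro ⟨z, hz'⟩
    have hz1 : ‖z‖ ≤ 1 := by
      by_contra hcon
      push Not at hcon
      rw [hz', norm_mul] at hn
      nlinarith
    obtain ⟨w, hw⟩ : ∃ w : ℤ_[p], (w : ℚ_[p]) = z := ⟨⟨z, hz1⟩, rfl⟩
    have hvw : v = w * w := by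
      apply Subtype.ext
      rw [PadicInt.coe_mul, hw, hv, hz']
    refine ⟨PadicInt.toZMod w, ?_⟩
    rw [← hz, hvw, map_mul]
    ring

/-- a positive rational number with even valuations is a square -/
theorem rat_sq {w : ℚ} (hw : 0 < w) (h : ∀ p : ℕ, p.Prime → Even (padicValRat p w)) :
    ∃ m : ℚ, m ≠ 0 ∧ w = m ^ 2 := by
  obtain ⟨a, b, hab, hsa⟩ := Nat.sq_mul_squarefree (w.num.toNat * w.den)
  have hnum : (0 : ℤ) < w.num := Rat.num_pos.mpr hw
  have hn : ((w.num.toNat : ℕ) : ℤ) = w.num := Int.toNat_of_nonneg hnum.le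
  have hden : 0 < w.den := w.den_pos
  have hprod : 0 < w.num.toNat * w.den := Nat.mul_pos (by omega) hden
  have hb : b ≠ 0 := by
    rintro rfl
    rw [← hab] at hprod
    simp at hprod
  have hwq : w * (w.den : ℚ) ^ 2 = ((w.num.toNat * w.den : ℕ) : ℚ) := by
    have e1 : (w.num : ℚ) = ((w.num.toNat : ℕ) : ℚ) := by exact_mod_cast hn.symm
    have e2 : w * w.den = w.num := Rat.mul_den_eq_num w
    rw [e1] at e2
    push_cast
    rw [← e2]
    ring
  have hd0 : (w.den : ℚ) ≠ 0 := by exact_mod_cast hden.ne'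
  have ha1 : a = 1 := by
    by_contra ha
    obtain ⟨p, hp, hpa⟩ := Nat.exists_prime_and_dvd ha
    have := Fact.mk hp
    have ha0 : a ≠ 0 := hsa.ne_zero
    have hva : padicValNat p a = 1 := by
      have h1 : 1 ≤ padicValNat p a := one_le_padicValNat_of_dvd ha0 hpa
      have h2 : padicValNat p a < 2 := by
        by_contra hcon
        push Not at hcon
        have h3 : p ^ 2 ∣ a := (padicValNat_dvd_iff_le ha0).2 hcon
        have := hsa p (by rw [← sq]; exact h3)
        exact hp.one_lt.ne' (Nat.isUnit_iff.mp this)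
      omega
    have h4 := congrArg (padicValRat p) hwq
    rw [padicValRat.mul hw.ne' (pow_ne_zero 2 hd0), padicValRat.pow, ← hab,
      padicValRat.of_nat (n := b ^ 2 * a), padicValNat.mul (pow_ne_zero 2 hb) ha0,
      padicValNat.pow, hva] at h4
    have h5 := h p hp
    rw [Int.even_iff] at h5
    push_cast at h4
    omega
  have hbq : (b : ℚ) ≠ 0 := by exact_mod_cast hb
  refine ⟨b / w.den, div_ne_zero hbq hd0, ?_⟩
  rw [ha1, mul_one] at hab
  rw [← hab] at hwq
  push_cast at hwq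
  field_simp
  linear_combination hwq

/-- two classes at `2` -/
theorem two_sign {w z : ℚ_[2]} (hw : ‖w - 1‖ ≤ 1 / 4) (hz : -w = z ^ 2) : False := by
  have h2 : ‖(2 : ℚ_[2])‖ = 1 / 2 := by
    have := Padic.norm_p (p := 2)
    push_cast at this
    rw [this]; norm_num
  have hw1 : ‖w‖ = 1 := by
    have e : w = (w - 1) + 1 := by ring
    have h3 : ‖(w - 1 : ℚ_[2])‖ ≠ ‖(1 : ℚ_[2])‖ := by
      rw [norm_one]
      intro h
      rw [h] at hw
      norm_num at hw
    rw [e, Padic.add_eq_max_of_ne h3, norm_one]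
    exact max_eq_right (by linarith)
  have hz1 : ‖z‖ = 1 := by
    have h3 : ‖z‖ ^ 2 = 1 := by rw [← norm_pow, ← hz, norm_neg, hw1]
    nlinarith [norm_nonneg z]
  obtain ⟨n, hn, h3⟩ := unit_approx hz1
  have h4 : ‖z - 1‖ ≤ 1 / 2 := by
    have e : z - 1 = (z - n) + ((n - 1 : ℤ) : ℚ_[2]) := by push_cast; ring
    rw [e]
    exact (Padic.nonarchimedean _ _).trans (max_le (by linarith) (norm_le2.2 (by omega)))
  have h5 : ‖z + 1‖ ≤ 1 / 2 := by
    have e : z + 1 = (z - n) + ((n + 1 : ℤ) : ℚ_[2]) := by push_cast; ring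
    rw [e]
    exact (Padic.nonarchimedean _ _).trans (max_le (by linarith) (norm_le2.2 (by omega)))
  have h6 : ‖z ^ 2 - 1‖ ≤ 1 / 4 := by
    have e : z ^ 2 - 1 = (z - 1) * (z + 1) := by ring
    rw [e, norm_mul]
    nlinarith [norm_nonneg (z - 1), norm_nonneg (z + 1)]
  have h7 : ‖(-2 : ℚ_[2])‖ ≤ 1 / 4 := by
    have e : (-2 : ℚ_[2]) = (z ^ 2 - 1) + (w - 1) := by rw [← hz]; ring
    rw [e]
    exact (Padic.nonarchimedean _ _).trans (max_le h6 hw)
  rw [norm_neg, h2] at h7
  norm_num at h7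

end Pool.Agent.Q16.BKC
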