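import Pool.Agent.Q274.BKC.Stm2

/-!
# BKC: the class number of `ℚ(√-q)` is odd for primes `q = 3 mod 4`

Elementary proof (S. Nemoto style, without genus theory): if `J ^ 2 = (γ)` then `γ * σ γ = n ^ 2`
with `n` the norm of `J`, and with `β = n + γ` we have `γ * σ β = n * β`.
-/

set_option autoImplicit false

namespace Pool.Agent.Q16.BKC

open NumberField

section conj

variable {K : Type} [Field K] [NumberField K] {q : ℕ} {s : K}

theorem ab_zero (hq : 0 < q) (hs : s ^ 2 = -(q : K)) {a b : ℚ}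
    (h : (a : K) + b * s = 0) : a = 0 ∧ b = 0 := by
  have h1 : ((a ^ 2 + q * b ^ 2 : ℚ) : K) = 0 := by
    push_cast
    have : (a : K) = - (b * s) := eq_neg_of_add_eq_zero_left h
    rw [this]
    linear_combination (b : K) ^ 2 * hs
  have h2 : a ^ 2 + q * b ^ 2 = 0 := by exact_mod_cast h1
  have hq' : (0 : ℚ) < q := by exact_mod_cast hq
  constructor
  · nlinarith [sq_nonneg a, sq_nonneg b, mul_nonneg hq'.le (sq_nonneg b), pow_eq_zero_iff (two_ne_zero) (a := a)]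
  · by_contra hb
    have : 0 < b ^ 2 := by positivity
    nlinarith [sq_nonneg a, mul_pos hq' this]

theorem exists_ab (hq : 0 < q) (hs : s ^ 2 = -(q : K)) (hd : Module.finrank ℚ K = 2) (x : K) :
    ∃ a b : ℚ, x = (a : K) + b * s := by
  let φ : (Fin 2 → ℚ) →ₗ[ℚ] K :=
    (LinearMap.toSpanSingleton ℚ K 1).comp (LinearMap.proj 0) +
      (LinearMap.toSpanSingleton ℚ K s).comp (LinearMap.proj 1)
  have hφ : ∀ v, φ v = (v 0 : K) + v 1 * s := by
    intro v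
    simp only [φ, LinearMap.add_apply, LinearMap.comp_apply, LinearMap.proj_apply,
      LinearMap.toSpanSingleton_apply, Algebra.smul_def, mul_one]
    rfl
  have hinj : Function.Injective φ := by
    rw [← LinearMap.ker_eq_bot, LinearMap.ker_eq_bot']
    intro v hv
    rw [hφ] at hv
    obtain ⟨h0, h1⟩ := ab_zero hq hs hv
    funext i
    fin_cases i
    · exact h0
    · exact h1
  have hsurj : Function.Surjective φ := by
    refine (LinearMap.injective_iff_surjective_of_finrank_eq_finrank ?_).mp hinj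
    rw [hd]; simp
  obtain ⟨v, hv⟩ := hsurj x
  exact ⟨v 0, v 1, by rw [← hv, hφ]⟩

theorem exists_conj (hq : 0 < q) (hs : s ^ 2 = -(q : K)) (hd : Module.finrank ℚ K = 2) :
    ∃ σ : K ≃ₐ[ℚ] K, σ s = -s ∧ ∀ x : K, ((Algebra.norm ℚ x : ℚ) : K) = x * σ x := by
  classical
  have : Algebra.IsQuadraticExtension ℚ K := { finrank_eq_two' := hd }
  have : IsGalois ℚ K := inferInstance
  have hcard : Fintype.card (K ≃ₐ[ℚ] K) = 2 := by
    have := IsGalois.card_aut_eq_finrank ℚ K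
    rw [hd] at this
    rw [← Nat.card_eq_fintype_card]
    exact this
  obtain ⟨σ, hσ⟩ : ∃ σ : K ≃ₐ[ℚ] K, σ ≠ 1 := by
    by_contra hcon
    push Not at hcon
    have : Fintype.card (K ≃ₐ[ℚ] K) ≤ 1 := by
      rw [Fintype.card_le_one_iff]
      intro a b
      rw [hcon a, hcon b]
    omega
  have hun : (Finset.univ : Finset (K ≃ₐ[ℚ] K)) = {1, σ} := by
    symm
    rw [← Finset.card_eq_iff_eq_univ, Finset.card_pair hσ.symm, hcard]
  refine ⟨σ, ?_, ?_⟩
  · have h1 : (σ s) ^ 2 = s ^ 2 := by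
      rw [← map_pow, hs, map_neg, map_natCast]
    rcases sq_eq_sq_iff_eq_or_eq_neg.mp h1 with h | h
    · exfalso
      apply hσ
      ext x
      obtain ⟨a, b, rfl⟩ := exists_ab hq hs hd x
      simp [h]
    · exact h
  · intro x
    have := Algebra.norm_eq_prod_automorphisms ℚ x
    rw [hun, Finset.prod_pair hσ.symm] at this
    simpa using this

/-- the conjugation on integers and the data needed -/
theorem exists_conjO (hq : 0 < q) (hs : s ^ 2 = -(q : K)) (hd : Module.finrank ℚ K = 2) :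
    ∃ σ : 𝓞 K →+* 𝓞 K, (∀ x : 𝓞 K, σ (σ x) = x) ∧
      (∀ x : 𝓞 K, ∃ a b : ℚ, (x : K) = a + b * s ∧ (σ x : K) = a - b * s) ∧
      (∀ x : 𝓞 K, ((Algebra.norm ℤ x : ℤ) : 𝓞 K) = x * σ x) ∧
      (∀ x : 𝓞 K, ∃ T : ℤ, (T : 𝓞 K) = x + σ x) := by
  obtain ⟨σ, h1, h2⟩ := exists_conj hq hs hd
  have key : ∀ x : 𝓞 K, ∃ a b : ℚ, (x : K) = a + b * s ∧
      ((RingOfIntegers.mapRingHom σ x : 𝓞 K) : K) = a - b * s := by
    intro x
    obtain ⟨a, b, h⟩ := exists_ab hq hs hd (x : K)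
    refine ⟨a, b, h, ?_⟩
    rw [RingOfIntegers.mapRingHom_apply, h]
    simp [h1]
    ring
  refine ⟨RingOfIntegers.mapRingHom σ, ?_, key, ?_, ?_⟩
  · intro x
    apply RingOfIntegers.ext
    rw [RingOfIntegers.mapRingHom_apply, RingOfIntegers.mapRingHom_apply]
    obtain ⟨a, b, h⟩ := exists_ab hq hs hd (x : K)
    rw [h]
    simp [h1]
  · intro x
    apply RingOfIntegers.ext
    have h3 := h2 (x : K)
    rw [← Algebra.coe_norm_int] at h3
    simpa [RingOfIntegers.mapRingHom_apply] using h3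
  · intro x
    obtain ⟨a, b, h, h'⟩ := key x
    have hint : IsIntegral ℤ ((2 * a : ℚ)) := by
      have h4 : IsIntegral ℤ (algebraMap ℚ K (2 * a)) := by
        have : algebraMap ℚ K (2 * a) = (x : K) + ((RingOfIntegers.mapRingHom σ x : 𝓞 K) : K) := by
          rw [h, h']
          simp
          ring
        rw [this]
        exact (RingOfIntegers.isIntegral_coe _).add (RingOfIntegers.isIntegral_coe _)
      exact (isIntegral_algebraMap_iff (algebraMap ℚ K).injective).mp h4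
    obtain ⟨T, hT⟩ := IsIntegrallyClosed.isIntegral_iff.mp hint
    refine ⟨T, ?_⟩
    apply RingOfIntegers.ext
    have : (((T : ℤ) : ℚ) : K) = ((2 * a : ℚ) : K) := by
      rw [← hT]; rfl
    simp only [map_intCast, map_add]
    change ((T : ℤ) : K) = (x : K) + ((RingOfIntegers.mapRingHom σ x : 𝓞 K) : K)
    rw [h, h']
    push_cast at this
    rw [this]
    ring

end conj

/-- the data of an imaginary quadratic ring of integers, `4 * k = q + 1` -/
structure Dat (K : Type) [Field K] [NumberField K] (q k : ℕ) (S W : 𝓞 K)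
    (σ : 𝓞 K →+* 𝓞 K) : Prop where
  prime : q.Prime
  hk : 4 * k = q + 1
  hS : S ^ 2 = -(q : 𝓞 K)
  hW : S = 2 * W - 1
  inv : ∀ x, σ (σ x) = x
  sS : σ S = -S
  sW : σ W = 1 - W
  nm : ∀ x : 𝓞 K, ((Algebra.norm ℤ x : ℤ) : 𝓞 K) = x * σ x
  nn : ∀ x : 𝓞 K, 0 ≤ Algebra.norm ℤ x
  tr : ∀ x : 𝓞 K, ∃ T : ℤ, (T : 𝓞 K) = x + σ x
  nI : ∀ n : ℤ, Algebra.norm ℤ (n : 𝓞 K) = n ^ 2

theorem exists_dat {K : Type} [Field K] [NumberField K] {q : ℕ} {s : K} (hq : q.Prime)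
    (h4 : q % 4 = 3) (hs : s ^ 2 = -(q : K)) (hd : Module.finrank ℚ K = 2) :
    ∃ (k : ℕ) (S W : 𝓞 K) (σ : 𝓞 K →+* 𝓞 K), Dat K q k S W σ := by
  obtain ⟨σ, h1, h2, h3, h5⟩ := exists_conjO hq.pos hs hd
  obtain ⟨k, hk⟩ : ∃ k, 4 * k = q + 1 := ⟨(q + 1) / 4, by omega⟩
  have hkK : (4 : K) * k = q + 1 := by exact_mod_cast hk
  have hWi : IsIntegral ℤ ((1 + s) / 2) := by
    refine ⟨Polynomial.X ^ 2 - Polynomial.X + Polynomial.C (k : ℤ), ?_, ?_⟩
    · monicity!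
    · simp only [Polynomial.eval₂_add, Polynomial.eval₂_sub, Polynomial.eval₂_pow,
        Polynomial.eval₂_X, Polynomial.eval₂_C]
      simp only [algebraMap_int_eq, eq_intCast, Int.cast_natCast]
      linear_combination (1 / 4 : K) * hs + (1 / 4 : K) * hkK
  let W : 𝓞 K := ⟨(1 + s) / 2, hWi⟩
  have hWK : (W : K) = (1 + s) / 2 := rfl
  let S : 𝓞 K := 2 * W - 1
  have hSK : (S : K) = s := by
    have e : algebraMap (𝓞 K) K W = (1 + s) / 2 := rfl
    change algebraMap (𝓞 K) K (2 * W - 1) = s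
    rw [map_sub, map_mul, map_one, map_ofNat, e]; ring
  have hsS : σ S = - S := by
    obtain ⟨a, b, ha, hb⟩ := h2 S
    rw [hSK] at ha
    have h0 : ((a : ℚ) : K) + ((b - 1 : ℚ) : K) * s = 0 := by
      push_cast
      linear_combination -ha
    obtain ⟨e1, e2⟩ := ab_zero hq.pos hs h0
    apply RingOfIntegers.ext
    have e3 : b = 1 := by linarith
    rw [e1, e3] at hb
    have e : algebraMap (𝓞 K) K S = s := hSK
    change ((σ S : 𝓞 K) : K) = algebraMap (𝓞 K) K (-S)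
    rw [hb, map_neg, e]
    push_cast
    ring
  refine ⟨k, S, W, σ, hq, hk, ?_, rfl, h1, hsS, ?_, h3, ?_, h5, ?_⟩
  · apply RingOfIntegers.ext
    have e : algebraMap (𝓞 K) K S = s := hSK
    change algebraMap (𝓞 K) K (S ^ 2) = algebraMap (𝓞 K) K (-(q : 𝓞 K))
    rw [map_pow, map_neg, map_natCast, e, hs]
  · have e : σ (2 * W - 1) = -(2 * W - 1) := hsS
    rw [map_sub, map_mul, map_one, map_ofNat] at e
    have h2' : (2 : 𝓞 K) ≠ 0 := two_ne_zero
    apply mul_left_cancel₀ h2'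
    linear_combination e
  · intro x
    obtain ⟨a, b, ha, hb⟩ := h2 x
    have e : ((Algebra.norm ℤ x : ℤ) : K) = ((a ^ 2 + q * b ^ 2 : ℚ) : K) := by
      have e1 := congrArg (fun z : 𝓞 K => (z : K)) (h3 x)
      simp only [map_intCast, map_mul] at e1
      change ((Algebra.norm ℤ x : ℤ) : K) = (x : K) * (σ x : K) at e1
      rw [e1, ha, hb]
      push_cast
      linear_combination -(b : K) ^ 2 * hs
    have e2 : ((Algebra.norm ℤ x : ℤ) : ℚ) = a ^ 2 + q * b ^ 2 := by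
      have : (((Algebra.norm ℤ x : ℤ) : ℚ) : K) = ((a ^ 2 + q * b ^ 2 : ℚ) : K) := by
        rw [← e]; norm_cast
      exact_mod_cast this
    have e3 : (0 : ℚ) ≤ ((Algebra.norm ℤ x : ℤ) : ℚ) := by
      rw [e2]; positivity
    exact_mod_cast e3
  · intro n
    have := Algebra.norm_algebraMap (R := ℤ) (S := 𝓞 K) n
    rw [RingOfIntegers.rank, hd] at this
    exact this

section arith

variable {K : Type} [Field K] [NumberField K] {q k : ℕ} {S W : 𝓞 K} {σ : 𝓞 K →+* 𝓞 K}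

theorem int_dvd (h : Dat K q k S W σ) {a b : ℤ} (hab : (a : 𝓞 K) ∣ (b : 𝓞 K)) : a ∣ b := by
  obtain ⟨z, hz⟩ := hab
  have h1 : Algebra.norm ℤ (b : 𝓞 K) = Algebra.norm ℤ (a : 𝓞 K) * Algebra.norm ℤ z := by
    rw [hz, map_mul]
  rw [h.nI, h.nI] at h1
  exact (Int.pow_dvd_pow_iff two_ne_zero).mp ⟨_, h1⟩

theorem tr_dvd (h : Dat K q k S W σ) {p : ℕ} (hp : p.Prime) {y : 𝓞 K}
    (hy : (p : 𝓞 K) ∣ y ^ 2) : ∃ t : ℤ, y + σ y = (p : 𝓞 K) * t := by
  obtain ⟨u, hu⟩ := hy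
  have hpZ : Prime (p : ℤ) := Nat.prime_iff_prime_int.mp hp
  have hN : (p : ℤ) ∣ Algebra.norm ℤ y := by
    apply hpZ.dvd_of_dvd_pow (n := 2)
    rw [← map_pow, hu, map_mul]
    apply dvd_mul_of_dvd_left
    have := h.nI (p : ℤ)
    rw [Int.cast_natCast] at this
    rw [this]
    exact dvd_pow_self _ two_ne_zero
  obtain ⟨m, hm⟩ := hN
  obtain ⟨T, hT⟩ := h.tr y
  obtain ⟨U, hU⟩ := h.tr u
  have hT2 : (p : ℤ) ∣ T ^ 2 := by
    refine ⟨U + 2 * m, ?_⟩
    have h1 : ((T ^ 2 : ℤ) : 𝓞 K) = (((p : ℤ) * (U + 2 * m) : ℤ) : 𝓞 K) := by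
      have h2 := h.nm y
      rw [hm] at h2
      have h3 : (σ y) ^ 2 = (p : 𝓞 K) * σ u := by
        rw [← map_pow, hu, map_mul, map_natCast]
      push_cast
      push_cast at h2
      rw [hT, hU]
      linear_combination hu + h3 - 2 * h2
    exact_mod_cast h1
  obtain ⟨t, ht⟩ := hpZ.dvd_of_dvd_pow hT2
  exact ⟨t, by rw [← hT, ht]; push_cast; ring⟩

theorem dvd_of_sq (h : Dat K q k S W σ) {p : ℕ} (hp : p.Prime) (hpq : p ≠ q) {x : 𝓞 K}
    (hx : (p : 𝓞 K) ∣ x ^ 2) : (p : 𝓞 K) ∣ x := by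
  obtain ⟨t1, h1⟩ := tr_dvd h hp hx
  have hxW : (p : 𝓞 K) ∣ (x * W) ^ 2 := by
    rw [mul_pow]; exact dvd_mul_of_dvd_left hx _
  obtain ⟨t2, h2⟩ := tr_dvd h hp hxW
  rw [map_mul, h.sW] at h2
  have h3 : x * S = (p : 𝓞 K) * (t2 - t1 * (1 - W)) := by
    rw [h.hW]
    linear_combination h2 - (1 - W) * h1
  have h4 : (q : 𝓞 K) * x = (p : 𝓞 K) * (-(S * (t2 - t1 * (1 - W)))) := by
    have := h.hS
    linear_combination (-S) * h3 + x * this
  have hco : IsCoprime (p : ℤ) (q : ℤ) := by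
    rw [Nat.isCoprime_iff_coprime]
    exact (Nat.coprime_primes hp h.prime).mpr hpq
  obtain ⟨u, v, huv⟩ := hco
  have huv' : (u : 𝓞 K) * p + v * q = 1 := by exact_mod_cast huv
  refine ⟨u * x + v * (-(S * (t2 - t1 * (1 - W)))), ?_⟩
  linear_combination (-x) * huv' + (v : 𝓞 K) * h4

theorem princ_of_sq (h : Dat K q k S W σ) {F : Ideal (𝓞 K)} {c : ℕ} (hc : Squarefree c)
    (hF : F ^ 2 = Ideal.span {(c : 𝓞 K)}) : ∃ f : 𝓞 K, F = Ideal.span {f} := by
  have hprimes : ∀ p : ℕ, p.Prime → p ∣ c → p = q := by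
    intro p hp hpc
    by_contra hpq
    have h1 : F ≤ Ideal.span {(p : 𝓞 K)} := by
      intro x hx
      rw [Ideal.mem_span_singleton]
      apply dvd_of_sq h hp hpq
      have h2 : x ^ 2 ∈ F ^ 2 := Ideal.pow_mem_pow hx 2
      rw [hF, Ideal.mem_span_singleton] at h2
      exact dvd_trans (by exact_mod_cast Nat.cast_dvd_cast (α := 𝓞 K) hpc) h2
    have h2 : Ideal.span {(p : 𝓞 K)} ^ 2 ∣ F ^ 2 :=
      pow_dvd_pow_of_dvd (Ideal.dvd_iff_le.mpr h1) 2
    rw [hF, Ideal.span_singleton_pow, Ideal.dvd_iff_le, Ideal.span_singleton_le_span_singleton]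
      at h2
    have h3 : ((p : ℤ) ^ 2) ∣ (c : ℤ) := by
      apply int_dvd h
      push_cast
      exact h2
    have h4 : p ^ 2 ∣ c := by exact_mod_cast h3
    have := hc p (by rw [← sq]; exact h4)
    exact hp.one_lt.ne' (Nat.isUnit_iff.mp this)
  have hcases : c = 1 ∨ c = q := by
    have h1 : c.primeFactors ⊆ {q} := by
      intro p hp
      rw [Finset.mem_singleton]
      exact hprimes p (Nat.prime_of_mem_primeFactors hp) (Nat.dvd_of_mem_primeFactors hp)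
    have h2 := Nat.prod_primeFactors_of_squarefree hc
    rcases Finset.subset_singleton_iff.mp h1 with h3 | h3
    · left; rw [← h2, h3]; simp
    · right; rw [← h2, h3]; simp
  rcases hcases with h1 | h1
  · refine ⟨1, ?_⟩
    rw [h1, Nat.cast_one, Ideal.span_singleton_one] at hF
    rw [Ideal.span_singleton_one]
    have : F ^ 2 ≤ F := Ideal.pow_le_self two_ne_zero
    rw [hF] at this
    exact top_le_iff.mp this
  · refine ⟨S, ?_⟩
    have h2 : F ^ 2 = Ideal.span {S} ^ 2 := by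
      rw [hF, h1, Ideal.span_singleton_pow, h.hS, Ideal.span_singleton_neg]
    apply le_antisymm
    · rw [← Ideal.dvd_iff_le]
      exact (UniqueFactorizationMonoid.pow_dvd_pow_iff_dvd two_ne_zero).mp (dvd_of_eq h2.symm)
    · rw [← Ideal.dvd_iff_le]
      exact (UniqueFactorizationMonoid.pow_dvd_pow_iff_dvd two_ne_zero).mp (dvd_of_eq h2)

/-- the descent: `J ^ 2 * (M) = (n) * (β) ^ 2` -/
theorem princ_of_eq (h : Dat K q k S W σ) {J : Ideal (𝓞 K)} {M n : ℕ} {β : 𝓞 K}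
    (hM : 0 < M) (hn : 0 < n) (hβ : β ≠ 0)
    (hJ : J ^ 2 * Ideal.span {(M : 𝓞 K)} = Ideal.span {(n : 𝓞 K)} * Ideal.span {β} ^ 2) :
    ∃ f : 𝓞 K, J = Ideal.span {f} := by
  obtain ⟨c, m, hcm, hc⟩ := Nat.sq_mul_squarefree (n * M)
  have hm : 0 < m := by
    rcases Nat.eq_zero_or_pos m with h0 | h0
    · exfalso
      rw [h0] at hcm
      have := Nat.mul_pos hn hM
      simp at hcm
      omega
    · exact h0
  have hm' : (m : 𝓞 K) ≠ 0 := by exact_mod_cast hm.ne'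
  have hM' : (M : 𝓞 K) ≠ 0 := by exact_mod_cast hM.ne'
  have hMi : Ideal.span {(M : 𝓞 K)} ≠ 0 := by
    simpa [Ideal.zero_eq_bot] using hM'
  have hb' : (m : 𝓞 K) * β ≠ 0 := mul_ne_zero hm' hβ
  have hbi : Ideal.span {(m : 𝓞 K) * β} ≠ 0 := by
    simpa [Ideal.zero_eq_bot] using And.intro hm.ne' hβ
  have e1 : (J * Ideal.span {(M : 𝓞 K)}) ^ 2 =
      Ideal.span {(m : 𝓞 K) * β} ^ 2 * Ideal.span {(c : 𝓞 K)} := by
    have e2 : (J * Ideal.span {(M : 𝓞 K)}) ^ 2 =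
        (J ^ 2 * Ideal.span {(M : 𝓞 K)}) * Ideal.span {(M : 𝓞 K)} := by ring
    rw [e2, hJ]
    simp only [Ideal.span_singleton_pow, Ideal.span_singleton_mul_span_singleton]
    congr 2
    have e3 : (m : 𝓞 K) ^ 2 * c = n * M := by exact_mod_cast hcm
    linear_combination (-β ^ 2) * e3
  have e4 : Ideal.span {(m : 𝓞 K) * β} ∣ J * Ideal.span {(M : 𝓞 K)} :=
    (UniqueFactorizationMonoid.pow_dvd_pow_iff_dvd two_ne_zero).mp ⟨_, e1⟩
  obtain ⟨F, hF⟩ := e4
  have e5 : F ^ 2 = Ideal.span {(c : 𝓞 K)} := by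
    rw [hF, mul_pow] at e1
    exact mul_left_cancel₀ (pow_ne_zero 2 hbi) e1
  obtain ⟨f, hf⟩ := princ_of_sq h hc e5
  rw [hf, Ideal.span_singleton_mul_span_singleton] at hF
  have e6 : (m : 𝓞 K) * β * f ∈ Ideal.span {(M : 𝓞 K)} := by
    have h8 : (m : 𝓞 K) * β * f ∈ J * Ideal.span {(M : 𝓞 K)} := by
      rw [hF]; exact Ideal.mem_span_singleton_self _
    have h9 : J * Ideal.span {(M : 𝓞 K)} ≤ Ideal.span {(M : 𝓞 K)} := Ideal.mul_le_right
    exact h9 h8
  rw [Ideal.mem_span_singleton] at e6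
  obtain ⟨g, hg⟩ := e6
  refine ⟨g, ?_⟩
  have e7 : J * Ideal.span {(M : 𝓞 K)} = Ideal.span {g} * Ideal.span {(M : 𝓞 K)} := by
    rw [hF, hg, Ideal.span_singleton_mul_span_singleton, mul_comm (M : 𝓞 K) g]
  exact mul_right_cancel₀ hMi e7

/-- **if `J ^ 2` is principal then so is `J`** -/
theorem princ_of_sq_princ (h : Dat K q k S W σ) {J : Ideal (𝓞 K)} (hJ0 : J ≠ ⊥) {γ : 𝓞 K}
    (hJ : J ^ 2 = Ideal.span {γ}) : ∃ f : 𝓞 K, J = Ideal.span {f} := by
  have hγ : γ ≠ 0 := by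
    rintro rfl
    rw [Ideal.span_singleton_zero] at hJ
    exact pow_ne_zero 2 hJ0 hJ
  set n : ℕ := Ideal.absNorm J with hn
  have hn0 : 0 < n := by
    rw [hn]
    exact Nat.pos_of_ne_zero (by rwa [Ne, Ideal.absNorm_eq_zero_iff])
  have e1 : γ * σ γ = (n : 𝓞 K) ^ 2 := by
    have e2 : Ideal.absNorm (J ^ 2) = (Algebra.norm ℤ γ).natAbs := by
      rw [hJ, Ideal.absNorm_span_singleton]
    rw [map_pow, ← hn] at e2
    have e3 : Algebra.norm ℤ γ = ((n ^ 2 : ℕ) : ℤ) := by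
      rw [e2, Int.natCast_natAbs, abs_of_nonneg (h.nn γ)]
    rw [← h.nm γ, e3]
    push_cast
    rfl
  by_cases hβ : (n : 𝓞 K) + γ = 0
  · have e2 : γ = -(n : 𝓞 K) := by linear_combination hβ
    refine princ_of_eq h (J := J) (M := 1) (n := n) (β := 1) one_pos hn0 one_ne_zero ?_
    rw [hJ, e2, Ideal.span_singleton_neg, Nat.cast_one, Ideal.span_singleton_one,
      ← Ideal.one_eq_top, one_pow]
  · obtain ⟨M, hM⟩ : ∃ M : ℕ, (M : ℤ) = Algebra.norm ℤ ((n : 𝓞 K) + γ) :=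
      ⟨_, Int.toNat_of_nonneg (h.nn _)⟩
    have hMe : (M : 𝓞 K) = ((n : 𝓞 K) + γ) * σ ((n : 𝓞 K) + γ) := by
      rw [← h.nm, ← hM]; push_cast; rfl
    have hM0 : 0 < M := by
      rcases Nat.eq_zero_or_pos M with h0 | h0
      · exfalso
        rw [h0] at hM
        have : Algebra.norm ℤ ((n : 𝓞 K) + γ) = 0 := by rw [← hM]; rfl
        rw [Algebra.norm_eq_zero_iff] at this
        exact hβ this
      · exact h0
    refine princ_of_eq h (J := J) (M := M) (n := n) (β := (n : 𝓞 K) + γ) hM0 hn0 hβ ?_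
    rw [hJ]
    simp only [Ideal.span_singleton_pow, Ideal.span_singleton_mul_span_singleton]
    congr 2
    rw [hMe, map_add, map_natCast]
    linear_combination ((n : 𝓞 K) + γ) * e1

end arith

/-- BKC-17 (CLS): the class number is odd -/
theorem t_CLS : Pool.Agent.Q274.BKC.S_CLS := by
  intro K _ _ q s hq h4 hs hd I hI
  obtain ⟨k, S, W, σ, h⟩ := exists_dat hq h4 hs hd
  classical
  have hodd : Odd (Fintype.card (ClassGroup (𝓞 K))) := by
    by_contra hcon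
    rw [Nat.not_odd_iff_even, even_iff_two_dvd] at hcon
    have : Fact (Nat.Prime 2) := ⟨Nat.prime_two⟩
    obtain ⟨g, hg⟩ := exists_prime_orderOf_dvd_card 2 hcon
    obtain ⟨J, rfl⟩ := ClassGroup.mk0_surjective g
    have hJ0 : (J : Ideal (𝓞 K)) ≠ ⊥ := mem_nonZeroDivisors_iff_ne_zero.mp J.2
    have h1 : ClassGroup.mk0 (J ^ 2) = 1 := by
      rw [map_pow, ← hg]; exact pow_orderOf_eq_one _
    have hmem : (J : Ideal (𝓞 K)) ^ 2 ∈ nonZeroDivisors (Ideal (𝓞 K)) := pow_mem J.2 2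
    have h2 : ((J : Ideal (𝓞 K)) ^ 2).IsPrincipal := by
      rw [← ClassGroup.mk0_eq_one_iff hmem, ← h1]
      congr 1
    obtain ⟨γ, hγ⟩ := h2.principal
    obtain ⟨f, hf⟩ := princ_of_sq_princ h hJ0 (γ := γ) hγ
    have h3 : ClassGroup.mk0 J = 1 := by
      apply (ClassGroup.mk0_eq_one_iff J.2).mpr
      rw [hf]
      exact ⟨⟨f, rfl⟩⟩
    rw [h3, orderOf_one] at hg
    omega
  refine ⟨Fintype.card (ClassGroup (𝓞 K)), ?_⟩
  have hI' : I ∈ nonZeroDivisors (Ideal (𝓞 K)) := mem_nonZeroDivisors_iff_ne_zero.mpr hI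
  have h1 : ClassGroup.mk0 ((⟨I, hI'⟩ : nonZeroDivisors (Ideal (𝓞 K))) ^
      Fintype.card (ClassGroup (𝓞 K))) = 1 := by
    rw [map_pow, pow_card_eq_one]
  have hmem : I ^ Fintype.card (ClassGroup (𝓞 K)) ∈ nonZeroDivisors (Ideal (𝓞 K)) :=
    pow_mem hI' _
  have h2 : (I ^ Fintype.card (ClassGroup (𝓞 K))).IsPrincipal := by
    rw [← ClassGroup.mk0_eq_one_iff hmem, ← h1]
    congr 1
  obtain ⟨β, hβ⟩ := h2.principal
  exact ⟨β, hodd, hβ⟩

end Pool.Agent.Q16.BKC
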