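import Pool.Agent.Q274.BKC.Stm2

/-!
Project BKC (helper274), job LIN: orthonormal families of continuous functions on a compact space,
dual to points.
-/

set_option autoImplicit false

namespace Pool.Agent.Q16.BKC

open Pool.Agent.Q274.BKC Matrix

theorem t_LIN : S_LIN := by
  classical
  intro G _ _ W hW r hr
  obtain ⟨f, hf⟩ := Module.le_rank_iff.1 hr
  -- the functions
  have hf1 : LinearIndependent ℚ_[2] fun i => (f i : G → ℚ_[2]) :=
    hf.map' W.subtype (Submodule.ker_subtype W)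
  have hfc : ∀ i, Continuous (f i : G → ℚ_[2]) := fun i => hW _ (f i).2
  -- evaluation vectors
  let v : G → (Fin r → ℚ_[2]) := fun g i => (f i : G → ℚ_[2]) g
  have hspan : Submodule.span ℚ_[2] (Set.range v) = ⊤ := by
    by_contra hne
    obtain ⟨φ, hφ0, hφ⟩ := Submodule.exists_le_ker_of_lt_top _ (lt_top_iff_ne_top.2 hne)
    apply hφ0
    have h1 : ∀ g, ∑ i, φ (Pi.single i 1) * (f i : G → ℚ_[2]) g = 0 := by
      intro g
      have h2 : φ (v g) = 0 := hφ (Submodule.subset_span ⟨g, rfl⟩)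
      rw [← h2]
      conv_rhs => rw [pi_eq_sum_univ' (v g)]
      rw [map_sum]
      refine Finset.sum_congr rfl fun i _ => ?_
      rw [map_smul, smul_eq_mul, mul_comm]
    have h3 := Fintype.linearIndependent_iff.1 hf1 (fun i => φ (Pi.single i 1)) (by
      funext g
      rw [Finset.sum_apply]
      simpa using h1 g)
    apply LinearMap.pi_ext'
    intro i
    ext
    simpa using h3 i
  obtain ⟨κ, a, ha, hsp, hli⟩ := exists_linearIndependent' ℚ_[2] v
  have hb : ⊤ ≤ Submodule.span ℚ_[2] (Set.range (v ∘ a)) := by rw [hsp, hspan]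
  let e : κ ≃ Fin r := (Module.Basis.mk hli hb).indexEquiv (Pi.basisFun ℚ_[2] (Fin r))
  have hli2 : LinearIndependent ℚ_[2] ((v ∘ a) ∘ e.symm) := hli.comp _ e.symm.injective
  -- the matrix
  let M : (Fin r → G) → Matrix (Fin r) (Fin r) ℚ_[2] := fun τ => Matrix.of fun i j =>
    (f i : G → ℚ_[2]) (τ j)
  have hdet0 : (M (a ∘ e.symm)).det ≠ 0 := by
    have h1 : LinearIndependent ℚ_[2] (M (a ∘ e.symm)).col := hli2
    rw [Matrix.linearIndependent_cols_iff_isUnit] at h1
    exact ((Matrix.isUnit_iff_isUnit_det _).1 h1).ne_zero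
  have hMc : Continuous fun τ : Fin r → G => ‖(M τ).det‖ := by
    refine (Continuous.matrix_det ?_).norm
    exact continuous_matrix fun i j => (hfc i).comp (continuous_apply j)
  obtain ⟨τ, -, hτ⟩ := (isCompact_univ (X := Fin r → G)).exists_isMaxOn ⟨a ∘ e.symm, trivial⟩
    hMc.continuousOn
  have hmax : ∀ τ' : Fin r → G, ‖(M τ').det‖ ≤ ‖(M τ).det‖ := fun τ' => hτ (Set.mem_univ τ')
  have hdet : (M τ).det ≠ 0 := by
    intro h
    have h1 := hmax (a ∘ e.symm)
    rw [h, norm_zero] at h1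
    exact hdet0 (norm_le_zero_iff.1 h1)
  have hc : ∀ i g, ((M τ).adjugate *ᵥ v g) i = (M (Function.update τ i g)).det := by
    intro i g
    rw [← Matrix.cramer_eq_adjugate_mulVec, Matrix.cramer_apply]
    congr 1
    ext k l
    rw [Matrix.updateCol_apply]
    by_cases h : l = i
    · subst h
      simp [M, v]
    · simp [M, h]
  refine ⟨fun i g => ((M τ).det)⁻¹ * ((M τ).adjugate *ᵥ v g) i, τ, fun i => ?_, fun i j => ?_,
    fun i g => ?_⟩
  · have h1 : (fun g => ((M τ).det)⁻¹ * ((M τ).adjugate *ᵥ v g) i) =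
        ∑ k, (((M τ).det)⁻¹ * (M τ).adjugate i k) • (f k : G → ℚ_[2]) := by
      funext g
      rw [Finset.sum_apply]
      simp only [Matrix.mulVec, dotProduct, Pi.smul_apply, smul_eq_mul, Finset.mul_sum, v, mul_assoc]
    show (fun g => ((M τ).det)⁻¹ * ((M τ).adjugate *ᵥ v g) i) ∈ W
    rw [h1]
    exact Submodule.sum_mem _ fun k _ => Submodule.smul_mem _ _ (f k).2
  · have h1 : ((M τ).adjugate *ᵥ v (τ j)) i = ((M τ).adjugate * M τ) i j := rfl
    show ((M τ).det)⁻¹ * ((M τ).adjugate *ᵥ v (τ j)) i = _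
    rw [h1, Matrix.adjugate_mul, Matrix.smul_apply, Matrix.one_apply, smul_eq_mul]
    split_ifs
    · rw [mul_one, inv_mul_cancel₀ hdet]
    · rw [mul_zero, mul_zero]
  · rw [norm_mul, norm_inv, hc, inv_mul_le_iff₀ (norm_pos_iff.2 hdet), mul_one]
    exact hmax _

end Pool.Agent.Q16.BKC
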