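import Pool.Agent.Q274.BKC.Stm2

/-!
Project BKC (helper274), job PF: the product formula for the symbols `hn`.
-/

set_option autoImplicit false

namespace Pool.Agent.Q16.BKC

open Pool.Agent.Q274.BKC
open Pool.Agent.Y676.HS (hs hs_one_iff hs_comm splits_real_iff)
open Pool.Agent.W313.BMX (Splits splits_mul_sq splits_comm ram diag)
open Pool.Agent.W351.HB.PF (ev_all mem_none mem_some)

/-- the symbol at a prime number -/
noncomputable def gp (x y : ℚ) (p : ℕ) [Fact p.Prime] : ℤ := hs (x : ℚ_[p]) (y : ℚ_[p])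

/-- the symbol at a natural number -/
noncomputable def gg (x y : ℚ) (p : ℕ) : ℤ :=
  open Classical in if h : p.Prime then @gp x y p ⟨h⟩ else 1

theorem splits_cls {F : Type} [Field F] {a a' b b' u v : F} (hu : u ≠ 0) (hv : v ≠ 0)
    (ha : a = a' * u ^ 2) (hb : b = b' * v ^ 2) : Splits a b ↔ Splits a' b' := by
  rw [ha, hb, splits_mul_sq hu, splits_comm, splits_mul_sq hv, splits_comm]

theorem rat_cls {F : Type} [Field F] [CharZero F] (x : ℚ) :
    (x : F) = ((x.num * x.den : ℤ) : F) * ((x.den : F)⁻¹) ^ 2 := by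
  have h1 : (x.den : F) ≠ 0 := by exact_mod_cast x.den_nz
  have h2 : (x : F) = (x.num : F) / (x.den : F) := by
    exact Rat.cast_def x
  rw [h2]
  push_cast
  field_simp

theorem splits_rat {F : Type} [Field F] [CharZero F] (x y : ℚ) :
    Splits (x : F) (y : F) ↔ Splits ((x.num * x.den : ℤ) : F) ((y.num * y.den : ℤ) : F) :=
  splits_cls (inv_ne_zero (by exact_mod_cast x.den_nz)) (inv_ne_zero (by exact_mod_cast y.den_nz))
    (rat_cls x) (rat_cls y)

theorem gg_prod (x y : ℚ) (hx : x ≠ 0) (hy : y ≠ 0) (hxy : ¬ (x < 0 ∧ y < 0)) :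
    ∃ S : Finset ℕ, (∀ p ∉ S, gg x y p = 1) ∧ ∀ W : Finset ℕ, S ⊆ W → ∏ p ∈ W, gg x y p = 1 := by
  classical
  have ha : (x.num * x.den : ℤ) ≠ 0 :=
    mul_ne_zero (Rat.num_ne_zero.2 hx) (by exact_mod_cast x.den_nz)
  have hb : (y.num * y.den : ℤ) ≠ 0 :=
    mul_ne_zero (Rat.num_ne_zero.2 hy) (by exact_mod_cast y.den_nz)
  obtain ⟨hfin, hev⟩ := ev_all Pool.Agent.W215.HB.bilo_ Pool.Agent.W864.HBm.bilt_ _ _ ha hb
  set R := ram (diag (x.num * x.den)) (y.num * y.den) with hR
  have hnone : none ∉ R := by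
    rw [hR, mem_none, not_not, ← splits_rat, splits_real_iff (by exact_mod_cast hx)
      (by exact_mod_cast hy)]
    intro h
    exact hxy ⟨by exact_mod_cast h.1, by exact_mod_cast h.2⟩
  let φ : Option Nat.Primes → ℕ := fun o => o.elim 0 fun p => (p : ℕ)
  have hinj : Set.InjOn φ R := by
    intro a ha' b hb' hab
    cases a with
    | none => exact absurd ha' hnone
    | some a =>
      cases b with
      | none => exact absurd hb' hnone
      | some b =>
        congr 1
        exact Subtype.ext hab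
  have hsome : ∀ p : Nat.Primes, some p ∈ R ↔ gg x y p ≠ 1 := by
    intro p
    rw [hR, mem_some, ← splits_rat, ← hs_one_iff]
    unfold gg
    rw [dif_pos p.2]
    rfl
  let S : Finset ℕ := hfin.toFinset.image φ
  have hS1 : ∀ p ∉ S, gg x y p = 1 := by
    intro p hp
    by_contra hne
    have hpp : p.Prime := by
      by_contra h
      apply hne
      unfold gg
      rw [dif_neg h]
    apply hp
    let P : Nat.Primes := ⟨p, hpp⟩
    exact Finset.mem_image.2 ⟨some P, hfin.mem_toFinset.2 ((hsome P).2 hne), rfl⟩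
  have hS2 : ∀ p ∈ S, gg x y p = -1 := by
    intro p hp
    obtain ⟨o, ho, rfl⟩ := Finset.mem_image.1 hp
    have ho' := hfin.mem_toFinset.1 ho
    cases o with
    | none => exact absurd ho' hnone
    | some a =>
      have h1 := (hsome a).1 ho'
      show gg x y a = -1
      unfold gg at h1 ⊢
      rw [dif_pos a.2] at h1 ⊢
      unfold gp hs at h1 ⊢
      split_ifs at h1 ⊢ with h2
      · exact absurd rfl h1
      · rfl
  refine ⟨S, hS1, fun W hW => ?_⟩
  rw [← Finset.prod_subset hW fun p _ hp => hS1 p hp, Finset.prod_congr rfl hS2,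
    Finset.prod_const]
  have hcard : S.card = R.ncard := by
    rw [Set.ncard_eq_toFinset_card _ hfin, Finset.card_image_of_injOn]
    intro a ha' b hb' hab
    exact hinj (hfin.mem_toFinset.1 ha') (hfin.mem_toFinset.1 hb') hab
  rw [hcard]
  exact hev.neg_one_pow

theorem t_PF : S_PF := by
  classical
  intro q A B hq hA hB W hW
  have hq' : (0 : ℚ) < q := by exact_mod_cast hq
  have hN : (0 : ℚ) < A ^ 2 + q * B ^ 2 := by positivity
  obtain ⟨S1, h1, h1'⟩ := gg_prod (A ^ 2 + q * B ^ 2) (-(A * B)) hN.ne'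
    (neg_ne_zero.2 (mul_ne_zero hA hB)) (fun h => absurd h.1 (not_lt.2 hN.le))
  obtain ⟨S2, h2, h2'⟩ := gg_prod A q hA hq'.ne' (fun h => absurd h.2 (not_lt.2 hq'.le))
  have hn_eq : ∀ p, hn q A B p = gg (A ^ 2 + q * B ^ 2) (-(A * B)) p * gg A q p := by
    intro p
    unfold hn gg
    by_cases hp : p.Prime
    · rw [dif_pos hp, dif_pos hp, dif_pos hp]
      unfold hh gp
      simp only [Rat.cast_natCast]
    · rw [dif_neg hp, dif_neg hp, dif_neg hp, mul_one]
  have hone : ∀ p, p ∉ W → hn q A B p = 1 := by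
    intro p hp
    by_cases hpp : p.Prime
    · exact hW p hpp hp
    · unfold hn
      rw [dif_neg hpp]
  rw [Finset.prod_subset (Finset.subset_union_left (s₂ := S1 ∪ S2)) fun p _ hp => hone p hp]
  simp only [hn_eq]
  rw [Finset.prod_mul_distrib, h1' _ ?_, h2' _ ?_, one_mul]
  · intro p hp
    exact Finset.mem_union_right _ (Finset.mem_union_right _ hp)
  · intro p hp
    exact Finset.mem_union_right _ (Finset.mem_union_left _ hp)

end Pool.Agent.Q16.BKC
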